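import Pool.Agent.H949.CM.MainC
import Pool.Agent.H949.CM.Exist

/-!
# MP_884359_pr, Q1: the faster colour wins, under both couplings

The configuration model on `n + 1` vertices: the degrees `d` are independent with law `μD` (law
`Measure.pi fun _ : Fin (n + 1) => μD`), `fixParity d` adds one half-edge to the last vertex if
the sum is odd, and `cmLaw κ (fixParity d)` is the law of the uniform pairing of the half-edges,
of the independent pairs (red length, blue length) with law `κ` carried by the edges, and of the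
two independent uniform sources.

`IsOutcome` says that `t`, `col` are the colouring times and final colours of the competition for
some way of breaking ties; `fewRed d ε` is the event that some outcome has fewer than
`(1 - ε) (n + 1)` red vertices. So the theorem covers every rule for breaking ties, in particular
independent fair coins.
-/

open MeasureTheory Finset ProbabilityTheory Filter Topology
open scoped ENNReal

namespace Pool.Agent.Results.MP_884359_pr.FasterColourWins

open Pool.Agent.H949.CM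

/-- Coupling (i): red length `c + X`, blue length `lam * (c + X)` with the same `X`. -/
noncomputable def commonLaw (μX : Measure ℝ) (c lam : ℝ) : Measure (ℝ × ℝ) :=
  μX.map (fun x => (c + x, lam * (c + x)))

/-- Coupling (ii): red length `c + X`, blue length `lam * (c + X')`, with `X`, `X'` independent
copies. -/
noncomputable def indepLaw (μX : Measure ℝ) (c lam : ℝ) : Measure (ℝ × ℝ) :=
  (μX.map (fun x => c + x)).prod (μX.map (fun x => lam * (c + x)))

/-- The smallest possible length. -/
theorem exists_essinf (μ : Measure ℝ) [IsProbabilityMeasure μ] {c : ℝ}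
    (hc : μ (Set.Iio c) = 0) :
    ∃ y0 : ℝ, c ≤ y0 ∧ μ (Set.Iio y0) = 0 ∧ ∀ η > 0, 0 < μ (Set.Iic (y0 + η)) := by
  set S : Set ℝ := {y | μ (Set.Iio y) = 0} with hS
  have hcS : c ∈ S := hc
  have hbdd : BddAbove S := by
    by_contra hcon
    have h1 : ∀ n : ℕ, μ (Set.Iio (n : ℝ)) = 0 := by
      intro n
      obtain ⟨y, hy, hny⟩ := not_bddAbove_iff.1 hcon n
      exact measure_mono_null (Set.Iio_subset_Iio hny.le) hy
    have h2 : μ (⋃ n : ℕ, Set.Iio (n : ℝ)) = 0 := measure_iUnion_null h1
    have h3 : (⋃ n : ℕ, Set.Iio (n : ℝ)) = Set.univ := by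
      ext x
      simp only [Set.mem_iUnion, Set.mem_Iio, Set.mem_univ, iff_true]
      exact exists_nat_gt x
    rw [h3, measure_univ] at h2
    exact one_ne_zero h2
  refine ⟨sSup S, le_csSup hbdd hcS, ?_, ?_⟩
  · obtain ⟨u, hu1, hu2, hu3⟩ := exists_seq_tendsto_sSup ⟨c, hcS⟩ hbdd
    have h1 : Set.Iio (sSup S) ⊆ ⋃ n, Set.Iio (u n) := by
      intro x hx
      have hx' : x < sSup S := hx
      obtain ⟨n, hn⟩ := (hu2.eventually (lt_mem_nhds hx')).exists
      exact Set.mem_iUnion.2 ⟨n, hn⟩
    exact measure_mono_null h1 (measure_iUnion_null hu3)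
  · intro η hη
    by_contra hcon
    have h0 : μ (Set.Iic (sSup S + η)) = 0 := by
      simpa using hcon
    have h1 : sSup S + η ∈ S := measure_mono_null Set.Iio_subset_Iic_self h0
    have h2 := le_csSup hbdd h1
    linarith

theorem result (μD : Measure ℕ) [IsProbabilityMeasure μD] (τ c1 C1 : ℝ) (hτ2 : 2 < τ)
    (hτ3 : τ < 3) (hc1 : 0 < c1) (hC1 : c1 ≤ C1) (hD2 : μD {k | k < 2} = 0)
    (hlow : ∀ x : ℝ, 1 ≤ x → ENNReal.ofReal (c1 / x ^ (τ - 1)) ≤ μD {k | x < k})
    (hup : ∀ x : ℝ, 1 ≤ x → μD {k | x < k} ≤ ENNReal.ofReal (C1 / x ^ (τ - 1)))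
    (c lam : ℝ) (hc : 0 < c) (hlam : 1 < lam) (μX : Measure ℝ) [IsProbabilityMeasure μX]
    (hX : μX (Set.Iio 0) = 0) (κ : Measure (ℝ × ℝ))
    (hκ : κ = commonLaw μX c lam ∨ κ = indepLaw μX c lam) :
    (∀ (n : ℕ) (d : Fin (n + 1) → ℕ), IsProbabilityMeasure (cmLaw κ (fixParity d))) ∧
    (∀ (n : ℕ) (d : Fin (n + 1) → ℕ) (σ : Mt (HalfEdge d)) (ω : Sym2 (HalfEdge d) → ℝ × ℝ)
      (a b : Fin (n + 1)), ∃ t col, IsOutcome vtx σ (len ω) a b t col) ∧
    ∀ ε > 0, Tendsto (fun n : ℕ => ∫⁻ d, cmLaw κ (fixParity d) (fewRed (fixParity d) ε)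
      ∂(Measure.pi fun _ : Fin (n + 1) => μD)) atTop (𝓝 0) := by
  have hm1 : Measurable (fun x : ℝ => c + x) := by fun_prop
  have hm2 : Measurable (fun x : ℝ => lam * (c + x)) := by fun_prop
  have hm3 : Measurable (fun x : ℝ => (c + x, lam * (c + x))) := by fun_prop
  have hY : IsProbabilityMeasure (μX.map (fun x => c + x)) :=
    Measure.isProbabilityMeasure_map hm1.aemeasurable
  have hY2 : IsProbabilityMeasure (μX.map (fun x => lam * (c + x))) :=
    Measure.isProbabilityMeasure_map hm2.aemeasurable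
  have hκp : IsProbabilityMeasure κ := by
    rcases hκ with rfl | rfl
    · exact Measure.isProbabilityMeasure_map hm3.aemeasurable
    · unfold indepLaw; infer_instance
  have hYc : (μX.map (fun x => c + x)) (Set.Iio c) = 0 := by
    rw [Measure.map_apply hm1 measurableSet_Iio]
    have : (fun x : ℝ => c + x) ⁻¹' Set.Iio c = Set.Iio 0 := by
      ext x; simp
    rw [this]; exact hX
  obtain ⟨y0, hcy, hy1, hy2⟩ := exists_essinf (μX.map (fun x => c + x)) hYc
  have hy0 : 0 < y0 := lt_of_lt_of_le hc hcy
  have hy1' : μX {x | c + x < y0} = 0 := by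
    rw [Measure.map_apply hm1 measurableSet_Iio] at hy1
    exact hy1
  have hy2' : ∀ η > 0, 0 < μX {x | c + x ≤ y0 + η} := by
    intro η hη
    have := hy2 η hη
    rw [Measure.map_apply hm1 measurableSet_Iic] at this
    exact this
  have hlamset : {x : ℝ | lam * (c + x) < lam * y0} = {x | c + x < y0} := by
    have hlam0 : 0 < lam := by linarith
    ext x
    exact ⟨fun h => lt_of_mul_lt_mul_left h hlam0.le, fun h => mul_lt_mul_of_pos_left h hlam0⟩
  have hs1 : MeasurableSet {q : ℝ × ℝ | q.1 < y0} := measurableSet_lt measurable_fst measurable_const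
  have hs2 : MeasurableSet {q : ℝ × ℝ | q.2 < lam * y0} :=
    measurableSet_lt measurable_snd measurable_const
  have hs3 : ∀ η : ℝ, MeasurableSet {q : ℝ × ℝ | q.1 ≤ y0 + η} := fun η =>
    measurableSet_le measurable_fst measurable_const
  have hκ1 : κ {q | q.1 < y0} = 0 := by
    rcases hκ with rfl | rfl
    · unfold commonLaw
      rw [Measure.map_apply hm3 hs1]
      exact hy1'
    · unfold indepLaw
      have : {q : ℝ × ℝ | q.1 < y0} = Set.Iio y0 ×ˢ Set.univ := by
        ext q; simp
      rw [this, Measure.prod_prod, hy1, zero_mul]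
  have hκ2 : κ {q | q.2 < lam * y0} = 0 := by
    rcases hκ with rfl | rfl
    · unfold commonLaw
      rw [Measure.map_apply hm3 hs2]
      have : (fun x : ℝ => (c + x, lam * (c + x))) ⁻¹' {q : ℝ × ℝ | q.2 < lam * y0} =
          {x : ℝ | lam * (c + x) < lam * y0} := rfl
      rw [this, hlamset]
      exact hy1'
    · unfold indepLaw
      have : {q : ℝ × ℝ | q.2 < lam * y0} = Set.univ ×ˢ Set.Iio (lam * y0) := by
        ext q; simp
      rw [this, Measure.prod_prod, Measure.map_apply hm2 measurableSet_Iio]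
      have h2 : (fun x : ℝ => lam * (c + x)) ⁻¹' Set.Iio (lam * y0) =
          {x : ℝ | lam * (c + x) < lam * y0} := rfl
      rw [h2, hlamset, hy1', mul_zero]
  have hess : ∀ η > 0, 0 < κ {q | q.1 ≤ y0 + η} := by
    intro η hη
    rcases hκ with rfl | rfl
    · unfold commonLaw
      rw [Measure.map_apply hm3 (hs3 η)]
      exact hy2' η hη
    · unfold indepLaw
      have : {q : ℝ × ℝ | q.1 ≤ y0 + η} = Set.Iic (y0 + η) ×ˢ Set.univ := by
        ext q; simp
      rw [this, Measure.prod_prod, measure_univ, mul_one]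
      exact hy2 η hη
  refine ⟨fun n d => cmLaw_prob κ _ (even_fixParity d),
    fun n d σ ω a b => exists_outcome vtx σ (len ω) a b, ?_⟩
  intro ε hε
  have hτ : τ - 1 = 1 + (τ - 2) := by ring
  refine main_general μD (α := τ - 2) (c1 := c1) (C1 := C1) (y0 := y0) (β := lam * y0)
    (by linarith) (by linarith) hc1 (by linarith) hD2 ?_ ?_ κ hy0 (by nlinarith) hκ1 hκ2 hess hε
  · intro x hx
    rw [← hτ, Real.rpow_neg (by linarith), ← div_eq_mul_inv]
    exact hlow x hx
  · intro x hx
    rw [← hτ, Real.rpow_neg (by linarith), ← div_eq_mul_inv]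
    exact hup x hx

end Pool.Agent.Results.MP_884359_pr.FasterColourWins
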